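import Pool.Agent.Lib.MP_b2ebfc_lc.Final

/-!
# Counting the cycles of a given length in bipartite graphs in time `O*(1.97^n)`

There is one program `P` of the RAM language of `Pool/Agent/Lib/MP_b2ebfc_lc/Lang.lean` which, for
every 2-colourable graph `G` with vertex set `Fin n` and every `3 ≤ l ≤ n`, started on `n`, `l` and
the adjacency matrix of `G`, stops with the exact number of cycles of length `l` of `G` in
register 2.  The total bit cost (every elementary operation is charged the square of the total
number of bits of its operands, results and addresses) is at most `C (n+1)^d 1.97^n`.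
-/

set_option autoImplicit false

namespace Pool.Agent.Results.MP_b2ebfc_lc.BipartiteCycles

open Pool.Agent.Lib.MP_b2ebfc_lc

/-- Counting cycles in bipartite graphs. -/
theorem result : ∃ (P : Prog) (C d : ℕ), ∀ (n : ℕ) (G : SimpleGraph (Fin n)) [DecidableRel G.Adj],
    G.Colorable 2 → ∀ l : ℕ, 3 ≤ l → l ≤ n →
      (P.run (wordLen n) (initSt n l G)).r 2 = (G.copyCount (SimpleGraph.cycleGraph l) : ℤ) ∧
      (P.btime (wordLen n) (initSt n l G) : ℝ) ≤ C * ((n : ℝ) + 1) ^ d * (1.97 : ℝ) ^ n := by
  obtain ⟨C, d, h⟩ := btime_ok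
  exact ⟨mainP, C, d, fun n G _ h2 l hl3 hln =>
    ⟨value_ok n G h2 l hl3 hln, h n G h2 l hl3 hln⟩⟩

end Pool.Agent.Results.MP_b2ebfc_lc.BipartiteCycles
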